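import Mathlib

/-!
# MP_590da2_gt : a nilpotent hypercomplex Lie algebra with non-abelian Obata holonomy

We exhibit a 28-dimensional nilpotent real Lie algebra with a hypercomplex structure such that
already two curvature operators of the Obata connection do not commute.
-/

namespace Pool.Agent.Results.MP_590da2_gt.NonAbelianHolonomy

open LieAlgebra

attribute [local instance 100] LieRing.ofAssociativeRing

section General

variable {g : Type*} [LieRing g] [LieAlgebra ℝ g]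

/-- A complex structure on a real Lie algebra: `J² = -1` and vanishing Nijenhuis tensor. -/
structure IsComplexStructure (J : g →ₗ[ℝ] g) : Prop where
  sq : ∀ x, J (J x) = -x
  nijenhuis : ∀ x y, ⁅x, y⁆ + J (⁅J x, y⁆ + ⁅x, J y⁆) - ⁅J x, J y⁆ = 0

variable (g) in
/-- A hypercomplex structure: three complex structures with `J₁J₂ = -J₂J₁ = J₃`. -/
structure Hypercomplex where
  J1 : g →ₗ[ℝ] g
  J2 : g →ₗ[ℝ] g
  J3 : g →ₗ[ℝ] g
  cs1 : IsComplexStructure J1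
  cs2 : IsComplexStructure J2
  cs3 : IsComplexStructure J3
  mul12 : ∀ x, J1 (J2 x) = J3 x
  mul21 : ∀ x, J2 (J1 x) = -J3 x

/-- The Obata connection
`∇_X Y = ½([X,Y] + J₁[J₁X,Y] - J₂[X,J₂Y] + J₃[J₁X,J₂Y])`. -/
noncomputable def Hypercomplex.obata (H : Hypercomplex g) (x y : g) : g :=
  (1 / 2 : ℝ) • (⁅x, y⁆ + H.J1 ⁅H.J1 x, y⁆ - H.J2 ⁅x, H.J2 y⁆ + H.J3 ⁅H.J1 x, H.J2 y⁆)

theorem Hypercomplex.obata_add (H : Hypercomplex g) (x y z : g) :
    H.obata x (y + z) = H.obata x y + H.obata x z := by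
  simp only [Hypercomplex.obata, lie_add, map_add]
  module

theorem Hypercomplex.obata_smul (H : Hypercomplex g) (x : g) (t : ℝ) (y : g) :
    H.obata x (t • y) = t • H.obata x y := by
  simp only [Hypercomplex.obata, lie_smul, map_smul]
  module

/-- The operator `∇_X` on `g`, `∇_X(Y) = obata X Y`. -/
noncomputable def Hypercomplex.nabla (H : Hypercomplex g) (x : g) : Module.End ℝ g where
  toFun := H.obata x
  map_add' := H.obata_add x
  map_smul' := H.obata_smul x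

theorem Hypercomplex.nabla_apply (H : Hypercomplex g) (x y : g) :
    H.nabla x y = (1 / 2 : ℝ) • (⁅x, y⁆ + H.J1 ⁅H.J1 x, y⁆ - H.J2 ⁅x, H.J2 y⁆
      + H.J3 ⁅H.J1 x, H.J2 y⁆) := rfl

/-- The curvature operator `R(X,Y) = [∇_X, ∇_Y] - ∇_{[X,Y]}`. -/
noncomputable def Hypercomplex.curv (H : Hypercomplex g) (x y : g) : Module.End ℝ g :=
  ⁅H.nabla x, H.nabla y⁆ - H.nabla ⁅x, y⁆

theorem Hypercomplex.curv_apply (H : Hypercomplex g) (x y z : g) :
    H.curv x y z = H.nabla x (H.nabla y z) - H.nabla y (H.nabla x z) - H.nabla ⁅x, y⁆ z := rfl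

/-- `∇` is torsion-free: `∇_X Y - ∇_Y X = [X,Y]`. -/
def Hypercomplex.TorsionFree (H : Hypercomplex g) : Prop :=
  ∀ x y, H.nabla x y - H.nabla y x = ⁅x, y⁆

/-- `∇J = 0`: `∇_X (J Y) = J ∇_X Y`. -/
def Hypercomplex.Parallel (H : Hypercomplex g) (J : g →ₗ[ℝ] g) : Prop :=
  ∀ x y, H.nabla x (J y) = J (H.nabla x y)

/-- The Lie algebra `L` of endomorphisms contains every curvature operator. -/
def Hypercomplex.ContainsCurvature (H : Hypercomplex g)
    (L : LieSubalgebra ℝ (Module.End ℝ g)) : Prop :=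
  ∀ x y, H.curv x y ∈ L

/-- The Lie algebra `L` of endomorphisms is stable under bracketing with the operators `∇_X`. -/
def Hypercomplex.StableUnderNabla (H : Hypercomplex g)
    (L : LieSubalgebra ℝ (Module.End ℝ g)) : Prop :=
  ∀ x, ∀ A ∈ L, ⁅H.nabla x, A⁆ ∈ L

/-- The holonomy algebra of the left-invariant Obata connection: the smallest Lie algebra of
endomorphisms of `g` that contains all curvature operators `R(X,Y)` and is stable under
bracketing with the operators `∇_X`. -/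
noncomputable def Hypercomplex.hol (H : Hypercomplex g) : LieSubalgebra ℝ (Module.End ℝ g) :=
  sInf {L | H.ContainsCurvature L ∧ H.StableUnderNabla L}

/-- The Lie algebra `L` of endomorphisms is not abelian: it contains two endomorphisms `A`, `B`
with `[A,B] = AB - BA ≠ 0`. -/
def NonAbelian (L : LieSubalgebra ℝ (Module.End ℝ g)) : Prop :=
  ∃ A ∈ L, ∃ B ∈ L, A * B ≠ B * A

theorem Hypercomplex.curv_mem_hol (H : Hypercomplex g) (x y : g) : H.curv x y ∈ H.hol := by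
  unfold Hypercomplex.hol
  rw [← SetLike.mem_coe, LieSubalgebra.coe_sInf, Set.mem_iInter₂]
  intro L hL
  exact hL.1 x y

/-- The Obata connection is the only torsion-free connection preserving `J₁` and `J₂`
(left-invariant version). -/
theorem obata_unique (H : Hypercomplex g) (n m : g →ₗ[ℝ] Module.End ℝ g)
    (hn : ∀ x y, n x y - n y x = ⁅x, y⁆) (hm : ∀ x y, m x y - m y x = ⁅x, y⁆)
    (hn1 : ∀ x y, n x (H.J1 y) = H.J1 (n x y)) (hn2 : ∀ x y, n x (H.J2 y) = H.J2 (n x y))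
    (hm1 : ∀ x y, m x (H.J1 y) = H.J1 (m x y)) (hm2 : ∀ x y, m x (H.J2 y) = H.J2 (m x y)) :
    n = m := by
  have key : ∀ x y, (n - m) x y = (n - m) y x := by
    intro x y
    simp only [LinearMap.sub_apply]
    have h1 := hn x y
    have h2 := hm x y
    have : n x y - n y x = m x y - m y x := by rw [h1, h2]
    rw [sub_eq_sub_iff_add_eq_add] at this ⊢
    rw [this, add_comm]
  have k1 : ∀ x y, (n - m) x (H.J1 y) = H.J1 ((n - m) x y) := by
    intro x y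
    simp [LinearMap.sub_apply, hn1, hm1]
  have k2 : ∀ x y, (n - m) x (H.J2 y) = H.J2 ((n - m) x y) := by
    intro x y
    simp [LinearMap.sub_apply, hn2, hm2]
  have k3 : ∀ x y, (n - m) x y = 0 := by
    intro x y
    have a1 : (n - m) (H.J1 x) (H.J2 y) = H.J2 (H.J1 ((n - m) x y)) := by
      rw [k2, key (H.J1 x) y, k1, key y x]
    have a2 : (n - m) (H.J1 x) (H.J2 y) = H.J1 (H.J2 ((n - m) x y)) := by
      rw [key, k1, key (H.J2 y) x, k2]
    generalize (n - m) x y = w at *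
    have a3 : H.J3 w = -H.J3 w := by
      have := a1.symm.trans a2
      rw [H.mul12, H.mul21] at this
      exact this.symm
    have a4 : H.J3 w = 0 := by
      have h2 : (2 : ℝ) • H.J3 w = 0 := by
        rw [two_smul]
        nth_rewrite 1 [a3]
        simp
      simpa using h2
    have a5 := H.cs3.sq w
    rw [a4, map_zero] at a5
    exact neg_eq_zero.mp a5.symm
  ext x y
  have := k3 x y
  simp only [LinearMap.sub_apply, sub_eq_zero] at this
  exact this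

end General

/-! ## The example -/

/-- The underlying space `ℂ¹⁴` of the example, regarded as a real vector space. -/
def G : Type := Fin 14 → ℂ

noncomputable instance : AddCommGroup G := inferInstanceAs (AddCommGroup (Fin 14 → ℂ))
noncomputable instance : Module ℝ G := inferInstanceAs (Module ℝ (Fin 14 → ℂ))
instance : Module.Finite ℝ G := inferInstanceAs (Module.Finite ℝ (Fin 14 → ℂ))

@[ext] theorem G.ext' {u v : G} (h : ∀ i : Fin 14, u i = v i) : u = v := funext h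

theorem G.add_apply (u v : G) (i : Fin 14) : (u + v) i = u i + v i := rfl
theorem G.sub_apply (u v : G) (i : Fin 14) : (u - v) i = u i - v i := rfl
theorem G.neg_apply (u : G) (i : Fin 14) : (-u) i = -u i := rfl
theorem G.zero_apply (i : Fin 14) : (0 : G) i = 0 := rfl
theorem G.smul_apply (t : ℝ) (u : G) (i : Fin 14) : (t • u) i = (t : ℂ) * u i := by
  change t • (u i) = _
  simp

/-- Half of the bracket. -/
def D (u v : G) : G :=
  ![0, 0, 0, 0,
    u 0 * v 2, 2 * u 0 * v 3 - u 1 * v 2,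
    0, u 0 * v 5 - u 1 * v 4,
    - u 0 * v 5 + u 1 * v 4, 0,
    u 0 * v 8 + u 0 * v 7 - 2 * u 1 * v 6, 2 * u 0 * v 9 - u 1 * v 8 - u 1 * v 7,
    - u 0 * v 11 + u 1 * v 10, 0]

noncomputable instance : Bracket G G := ⟨fun u v => D u v - D v u⟩

theorem G.lie_def (u v : G) : ⁅u, v⁆ = D u v - D v u := rfl

theorem G.lie_apply (u v : G) (i : Fin 14) : ⁅u, v⁆ i = D u v i - D v u i := rfl

theorem D0 (u v : G) : D u v 0 = 0 := rfl
theorem D1 (u v : G) : D u v 1 = 0 := rfl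
theorem D2 (u v : G) : D u v 2 = 0 := rfl
theorem D3 (u v : G) : D u v 3 = 0 := rfl
theorem D4 (u v : G) : D u v 4 = u 0 * v 2 := rfl
theorem D5 (u v : G) : D u v 5 = 2 * u 0 * v 3 - u 1 * v 2 := rfl
theorem D6 (u v : G) : D u v 6 = 0 := rfl
theorem D7 (u v : G) : D u v 7 = u 0 * v 5 - u 1 * v 4 := rfl
theorem D8 (u v : G) : D u v 8 = - u 0 * v 5 + u 1 * v 4 := rfl
theorem D9 (u v : G) : D u v 9 = 0 := rfl
theorem D10 (u v : G) : D u v 10 = u 0 * v 8 + u 0 * v 7 - 2 * u 1 * v 6 := rfl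
theorem D11 (u v : G) : D u v 11 = 2 * u 0 * v 9 - u 1 * v 8 - u 1 * v 7 := rfl
theorem D12 (u v : G) : D u v 12 = - u 0 * v 11 + u 1 * v 10 := rfl
theorem D13 (u v : G) : D u v 13 = 0 := rfl

theorem forall14 {p : Fin 14 → Prop} (h0 : p 0) (h1 : p 1) (h2 : p 2) (h3 : p 3) (h4 : p 4)
    (h5 : p 5) (h6 : p 6) (h7 : p 7) (h8 : p 8) (h9 : p 9) (h10 : p 10) (h11 : p 11)
    (h12 : p 12) (h13 : p 13) : ∀ i, p i := by
  intro i
  fin_cases i <;> assumption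

theorem G.ext14 {u v : G} (h0 : u 0 = v 0) (h1 : u 1 = v 1) (h2 : u 2 = v 2) (h3 : u 3 = v 3)
    (h4 : u 4 = v 4) (h5 : u 5 = v 5) (h6 : u 6 = v 6) (h7 : u 7 = v 7) (h8 : u 8 = v 8)
    (h9 : u 9 = v 9) (h10 : u 10 = v 10) (h11 : u 11 = v 11) (h12 : u 12 = v 12)
    (h13 : u 13 = v 13) : u = v :=
  G.ext' (forall14 h0 h1 h2 h3 h4 h5 h6 h7 h8 h9 h10 h11 h12 h13)

noncomputable instance : LieRing G where
  add_lie u v w := by
    apply G.ext14 <;>
      simp only [G.add_apply, G.lie_apply, D0, D1, D2, D3, D4, D5, D6, D7, D8, D9, D10, D11, D12,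
        D13] <;> ring
  lie_add u v w := by
    apply G.ext14 <;>
      simp only [G.add_apply, G.lie_apply, D0, D1, D2, D3, D4, D5, D6, D7, D8, D9, D10, D11, D12,
        D13] <;> ring
  lie_self u := sub_self _
  leibniz_lie u v w := by
    apply G.ext14 <;>
      simp only [G.add_apply, G.lie_apply, D0, D1, D2, D3, D4, D5, D6, D7, D8, D9, D10, D11, D12,
        D13] <;> ring

noncomputable instance : LieAlgebra ℝ G where
  lie_smul t u v := by
    apply G.ext14 <;>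
      simp only [G.smul_apply, G.lie_apply, D0, D1, D2, D3, D4, D5, D6, D7, D8, D9, D10, D11, D12,
        D13] <;> ring

/-- Right multiplication by `i`. -/
noncomputable def J1f (u : G) : G :=
  ![Complex.I * u 0, -Complex.I * u 1, Complex.I * u 2, -Complex.I * u 3, Complex.I * u 4,
    -Complex.I * u 5, Complex.I * u 6, -Complex.I * u 7, Complex.I * u 8, -Complex.I * u 9,
    Complex.I * u 10, -Complex.I * u 11, Complex.I * u 12, -Complex.I * u 13]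

theorem J1f_0 (u : G) : J1f u 0 = Complex.I * u 0 := rfl
theorem J1f_1 (u : G) : J1f u 1 = -Complex.I * u 1 := rfl
theorem J1f_2 (u : G) : J1f u 2 = Complex.I * u 2 := rfl
theorem J1f_3 (u : G) : J1f u 3 = -Complex.I * u 3 := rfl
theorem J1f_4 (u : G) : J1f u 4 = Complex.I * u 4 := rfl
theorem J1f_5 (u : G) : J1f u 5 = -Complex.I * u 5 := rfl
theorem J1f_6 (u : G) : J1f u 6 = Complex.I * u 6 := rfl
theorem J1f_7 (u : G) : J1f u 7 = -Complex.I * u 7 := rfl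
theorem J1f_8 (u : G) : J1f u 8 = Complex.I * u 8 := rfl
theorem J1f_9 (u : G) : J1f u 9 = -Complex.I * u 9 := rfl
theorem J1f_10 (u : G) : J1f u 10 = Complex.I * u 10 := rfl
theorem J1f_11 (u : G) : J1f u 11 = -Complex.I * u 11 := rfl
theorem J1f_12 (u : G) : J1f u 12 = Complex.I * u 12 := rfl
theorem J1f_13 (u : G) : J1f u 13 = -Complex.I * u 13 := rfl

/-- Right multiplication by `j`. -/
noncomputable def J2f (u : G) : G :=
  ![-u 1, u 0, -u 3, u 2, -u 5, u 4, -u 7, u 6, -u 9, u 8, -u 11, u 10, -u 13, u 12]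

theorem J2f_0 (u : G) : J2f u 0 = -u 1 := rfl
theorem J2f_1 (u : G) : J2f u 1 = u 0 := rfl
theorem J2f_2 (u : G) : J2f u 2 = -u 3 := rfl
theorem J2f_3 (u : G) : J2f u 3 = u 2 := rfl
theorem J2f_4 (u : G) : J2f u 4 = -u 5 := rfl
theorem J2f_5 (u : G) : J2f u 5 = u 4 := rfl
theorem J2f_6 (u : G) : J2f u 6 = -u 7 := rfl
theorem J2f_7 (u : G) : J2f u 7 = u 6 := rfl
theorem J2f_8 (u : G) : J2f u 8 = -u 9 := rfl
theorem J2f_9 (u : G) : J2f u 9 = u 8 := rfl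
theorem J2f_10 (u : G) : J2f u 10 = -u 11 := rfl
theorem J2f_11 (u : G) : J2f u 11 = u 10 := rfl
theorem J2f_12 (u : G) : J2f u 12 = -u 13 := rfl
theorem J2f_13 (u : G) : J2f u 13 = u 12 := rfl

/-- The composite `J1f ∘ J2f`. -/
noncomputable def J3f (u : G) : G :=
  ![-Complex.I * u 1, -Complex.I * u 0, -Complex.I * u 3, -Complex.I * u 2, -Complex.I * u 5,
    -Complex.I * u 4, -Complex.I * u 7, -Complex.I * u 6, -Complex.I * u 9, -Complex.I * u 8,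
    -Complex.I * u 11, -Complex.I * u 10, -Complex.I * u 13, -Complex.I * u 12]

theorem J3f_0 (u : G) : J3f u 0 = -Complex.I * u 1 := rfl
theorem J3f_1 (u : G) : J3f u 1 = -Complex.I * u 0 := rfl
theorem J3f_2 (u : G) : J3f u 2 = -Complex.I * u 3 := rfl
theorem J3f_3 (u : G) : J3f u 3 = -Complex.I * u 2 := rfl
theorem J3f_4 (u : G) : J3f u 4 = -Complex.I * u 5 := rfl
theorem J3f_5 (u : G) : J3f u 5 = -Complex.I * u 4 := rfl
theorem J3f_6 (u : G) : J3f u 6 = -Complex.I * u 7 := rfl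
theorem J3f_7 (u : G) : J3f u 7 = -Complex.I * u 6 := rfl
theorem J3f_8 (u : G) : J3f u 8 = -Complex.I * u 9 := rfl
theorem J3f_9 (u : G) : J3f u 9 = -Complex.I * u 8 := rfl
theorem J3f_10 (u : G) : J3f u 10 = -Complex.I * u 11 := rfl
theorem J3f_11 (u : G) : J3f u 11 = -Complex.I * u 10 := rfl
theorem J3f_12 (u : G) : J3f u 12 = -Complex.I * u 13 := rfl
theorem J3f_13 (u : G) : J3f u 13 = -Complex.I * u 12 := rfl

/-- Closed form of the Obata connection of the example. -/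
def nab (u v : G) : G :=
  ![0, 0, 0, 0, 2 * u 0 * v 2 + v 0 * u 2, 2 * u 0 * v 3 + v 1 * u 2, u 0 * v 4 + v 0 * u 4,
    u 0 * v 5 + v 1 * u 4, u 1 * v 4 + v 0 * u 5, u 1 * v 5 + v 1 * u 5,
    2 * u 0 * v 8 - 2 * u 1 * v 6 + v 0 * (u 8 - u 7),
    2 * u 0 * v 9 - 2 * u 1 * v 7 + v 1 * (u 8 - u 7), u 1 * v 10 + v 0 * u 11,
    u 1 * v 11 + v 1 * u 11]

theorem nab_0 (u v : G) : nab u v 0 = 0 := rfl
theorem nab_1 (u v : G) : nab u v 1 = 0 := rfl
theorem nab_2 (u v : G) : nab u v 2 = 0 := rfl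
theorem nab_3 (u v : G) : nab u v 3 = 0 := rfl
theorem nab_4 (u v : G) : nab u v 4 = 2 * u 0 * v 2 + v 0 * u 2 := rfl
theorem nab_5 (u v : G) : nab u v 5 = 2 * u 0 * v 3 + v 1 * u 2 := rfl
theorem nab_6 (u v : G) : nab u v 6 = u 0 * v 4 + v 0 * u 4 := rfl
theorem nab_7 (u v : G) : nab u v 7 = u 0 * v 5 + v 1 * u 4 := rfl
theorem nab_8 (u v : G) : nab u v 8 = u 1 * v 4 + v 0 * u 5 := rfl
theorem nab_9 (u v : G) : nab u v 9 = u 1 * v 5 + v 1 * u 5 := rfl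
theorem nab_10 (u v : G) : nab u v 10 = 2 * u 0 * v 8 - 2 * u 1 * v 6 + v 0 * (u 8 - u 7) := rfl
theorem nab_11 (u v : G) : nab u v 11 = 2 * u 0 * v 9 - 2 * u 1 * v 7 + v 1 * (u 8 - u 7) := rfl
theorem nab_12 (u v : G) : nab u v 12 = u 1 * v 10 + v 0 * u 11 := rfl
theorem nab_13 (u v : G) : nab u v 13 = u 1 * v 11 + v 1 * u 11 := rfl

/-- The real-linear map given by `J1f`. -/
noncomputable def J1 : G →ₗ[ℝ] G where
  toFun := J1f
  map_add' u v := by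
    apply G.ext14 <;>
      simp only [G.add_apply,
      J1f_0, J1f_1, J1f_2, J1f_3, J1f_4, J1f_5, J1f_6, J1f_7, J1f_8, J1f_9, J1f_10, J1f_11,
      J1f_12, J1f_13] <;> ring
  map_smul' t u := by
    apply G.ext14 <;>
      simp only [G.smul_apply, RingHom.id_apply,
      J1f_0, J1f_1, J1f_2, J1f_3, J1f_4, J1f_5, J1f_6, J1f_7, J1f_8, J1f_9, J1f_10, J1f_11,
      J1f_12, J1f_13] <;> ring

theorem J1_apply (u : G) : J1 u = J1f u := rfl

/-- The real-linear map given by `J2f`. -/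
noncomputable def J2 : G →ₗ[ℝ] G where
  toFun := J2f
  map_add' u v := by
    apply G.ext14 <;>
      simp only [G.add_apply,
      J2f_0, J2f_1, J2f_2, J2f_3, J2f_4, J2f_5, J2f_6, J2f_7, J2f_8, J2f_9, J2f_10, J2f_11,
      J2f_12, J2f_13] <;> ring
  map_smul' t u := by
    apply G.ext14 <;>
      simp only [G.smul_apply, RingHom.id_apply,
      J2f_0, J2f_1, J2f_2, J2f_3, J2f_4, J2f_5, J2f_6, J2f_7, J2f_8, J2f_9, J2f_10, J2f_11,
      J2f_12, J2f_13] <;> ring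

theorem J2_apply (u : G) : J2 u = J2f u := rfl

/-- The real-linear map given by `J3f`. -/
noncomputable def J3 : G →ₗ[ℝ] G where
  toFun := J3f
  map_add' u v := by
    apply G.ext14 <;>
      simp only [G.add_apply,
      J3f_0, J3f_1, J3f_2, J3f_3, J3f_4, J3f_5, J3f_6, J3f_7, J3f_8, J3f_9, J3f_10, J3f_11,
      J3f_12, J3f_13] <;> ring
  map_smul' t u := by
    apply G.ext14 <;>
      simp only [G.smul_apply, RingHom.id_apply,
      J3f_0, J3f_1, J3f_2, J3f_3, J3f_4, J3f_5, J3f_6, J3f_7, J3f_8, J3f_9, J3f_10, J3f_11,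
      J3f_12, J3f_13] <;> ring

theorem J3_apply (u : G) : J3 u = J3f u := rfl

theorem J1_cs : IsComplexStructure J1 where
  sq u := by
    apply G.ext14 <;>
      simp only [J1_apply, G.neg_apply,
      J1f_0, J1f_1, J1f_2, J1f_3, J1f_4, J1f_5, J1f_6, J1f_7, J1f_8, J1f_9, J1f_10, J1f_11,
      J1f_12, J1f_13] <;>
      first | ring1 | (ring_nf; simp only [Complex.I_sq]; ring1)
  nijenhuis u v := by
    apply G.ext14 <;>
      simp only [J1_apply, G.add_apply, G.sub_apply, G.zero_apply, G.lie_apply,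
      J1f_0, J1f_1, J1f_2, J1f_3, J1f_4, J1f_5, J1f_6, J1f_7, J1f_8, J1f_9, J1f_10, J1f_11,
      J1f_12, J1f_13, D0, D1, D2, D3, D4, D5, D6, D7, D8, D9, D10, D11, D12, D13] <;>
      first | ring1 | (ring_nf; simp only [Complex.I_sq]; ring1)

theorem J2_cs : IsComplexStructure J2 where
  sq u := by
    apply G.ext14 <;>
      simp only [J2_apply, G.neg_apply,
      J2f_0, J2f_1, J2f_2, J2f_3, J2f_4, J2f_5, J2f_6, J2f_7, J2f_8, J2f_9, J2f_10, J2f_11,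
      J2f_12, J2f_13] <;>
      first | ring1 | (ring_nf; simp only [Complex.I_sq]; ring1)
  nijenhuis u v := by
    apply G.ext14 <;>
      simp only [J2_apply, G.add_apply, G.sub_apply, G.zero_apply, G.lie_apply,
      J2f_0, J2f_1, J2f_2, J2f_3, J2f_4, J2f_5, J2f_6, J2f_7, J2f_8, J2f_9, J2f_10, J2f_11,
      J2f_12, J2f_13, D0, D1, D2, D3, D4, D5, D6, D7, D8, D9, D10, D11, D12, D13] <;>
      first | ring1 | (ring_nf; simp only [Complex.I_sq]; ring1)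

theorem J3_cs : IsComplexStructure J3 where
  sq u := by
    apply G.ext14 <;>
      simp only [J3_apply, G.neg_apply,
      J3f_0, J3f_1, J3f_2, J3f_3, J3f_4, J3f_5, J3f_6, J3f_7, J3f_8, J3f_9, J3f_10, J3f_11,
      J3f_12, J3f_13] <;>
      first | ring1 | (ring_nf; simp only [Complex.I_sq]; ring1)
  nijenhuis u v := by
    apply G.ext14 <;>
      simp only [J3_apply, G.add_apply, G.sub_apply, G.zero_apply, G.lie_apply,
      J3f_0, J3f_1, J3f_2, J3f_3, J3f_4, J3f_5, J3f_6, J3f_7, J3f_8, J3f_9, J3f_10, J3f_11,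
      J3f_12, J3f_13, D0, D1, D2, D3, D4, D5, D6, D7, D8, D9, D10, D11, D12, D13] <;>
      first | ring1 | (ring_nf; simp only [Complex.I_sq]; ring1)

/-- The hypercomplex structure of the example. -/
noncomputable def H : Hypercomplex G where
  J1 := J1
  J2 := J2
  J3 := J3
  cs1 := J1_cs
  cs2 := J2_cs
  cs3 := J3_cs
  mul12 u := by
    apply G.ext14 <;>
      simp only [J1_apply, J2_apply, J3_apply,
      J1f_0, J1f_1, J1f_2, J1f_3, J1f_4, J1f_5, J1f_6, J1f_7, J1f_8, J1f_9, J1f_10, J1f_11,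
      J1f_12, J1f_13, J2f_0, J2f_1, J2f_2, J2f_3, J2f_4, J2f_5, J2f_6, J2f_7, J2f_8, J2f_9,
      J2f_10, J2f_11, J2f_12, J2f_13, J3f_0, J3f_1, J3f_2, J3f_3, J3f_4, J3f_5, J3f_6, J3f_7,
      J3f_8, J3f_9, J3f_10, J3f_11, J3f_12, J3f_13] <;> ring1
  mul21 u := by
    apply G.ext14 <;>
      simp only [J1_apply, J2_apply, J3_apply, G.neg_apply,
      J1f_0, J1f_1, J1f_2, J1f_3, J1f_4, J1f_5, J1f_6, J1f_7, J1f_8, J1f_9, J1f_10, J1f_11,
      J1f_12, J1f_13, J2f_0, J2f_1, J2f_2, J2f_3, J2f_4, J2f_5, J2f_6, J2f_7, J2f_8, J2f_9,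
      J2f_10, J2f_11, J2f_12, J2f_13, J3f_0, J3f_1, J3f_2, J3f_3, J3f_4, J3f_5, J3f_6, J3f_7,
      J3f_8, J3f_9, J3f_10, J3f_11, J3f_12, J3f_13] <;> ring1

theorem H_J1 : H.J1 = J1 := rfl
theorem H_J2 : H.J2 = J2 := rfl
theorem H_J3 : H.J3 = J3 := rfl

theorem nabla_eq (u v : G) : H.nabla u v = nab u v := by
  rw [Hypercomplex.nabla_apply, H_J1, H_J2, H_J3]
  apply G.ext14 <;>
    simp only [J1_apply, J2_apply, J3_apply, G.smul_apply, G.add_apply, G.sub_apply, G.lie_apply,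
      J1f_0, J1f_1, J1f_2, J1f_3, J1f_4, J1f_5, J1f_6, J1f_7, J1f_8, J1f_9, J1f_10, J1f_11,
      J1f_12, J1f_13, J2f_0, J2f_1, J2f_2, J2f_3, J2f_4, J2f_5, J2f_6, J2f_7, J2f_8, J2f_9,
      J2f_10, J2f_11, J2f_12, J2f_13, J3f_0, J3f_1, J3f_2, J3f_3, J3f_4, J3f_5, J3f_6, J3f_7,
      J3f_8, J3f_9, J3f_10, J3f_11, J3f_12, J3f_13, D0, D1, D2, D3, D4, D5, D6, D7, D8, D9,
      D10, D11, D12, D13, nab_0, nab_1, nab_2, nab_3, nab_4, nab_5, nab_6, nab_7, nab_8, nab_9,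
      nab_10, nab_11, nab_12, nab_13] <;>
    push_cast <;>
    first | ring1 | (ring_nf; simp only [Complex.I_sq]; ring1)

theorem torsion_free (u v : G) : H.nabla u v - H.nabla v u = ⁅u, v⁆ := by
  rw [nabla_eq, nabla_eq]
  apply G.ext14 <;>
    simp only [G.sub_apply, G.lie_apply,
      D0, D1, D2, D3, D4, D5, D6, D7, D8, D9, D10, D11, D12, D13, nab_0, nab_1, nab_2, nab_3,
      nab_4, nab_5, nab_6, nab_7, nab_8, nab_9, nab_10, nab_11, nab_12, nab_13] <;> ring1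

theorem parallel1 (u v : G) : H.nabla u (H.J1 v) = H.J1 (H.nabla u v) := by
  rw [nabla_eq, nabla_eq, H_J1, J1_apply, J1_apply]
  apply G.ext14 <;>
    simp only [
      J1f_0, J1f_1, J1f_2, J1f_3, J1f_4, J1f_5, J1f_6, J1f_7, J1f_8, J1f_9, J1f_10, J1f_11,
      J1f_12, J1f_13, nab_0, nab_1, nab_2, nab_3, nab_4, nab_5, nab_6, nab_7, nab_8, nab_9,
      nab_10, nab_11, nab_12, nab_13] <;> ring1

theorem parallel2 (u v : G) : H.nabla u (H.J2 v) = H.J2 (H.nabla u v) := by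
  rw [nabla_eq, nabla_eq, H_J2, J2_apply, J2_apply]
  apply G.ext14 <;>
    simp only [
      J2f_0, J2f_1, J2f_2, J2f_3, J2f_4, J2f_5, J2f_6, J2f_7, J2f_8, J2f_9, J2f_10, J2f_11,
      J2f_12, J2f_13, nab_0, nab_1, nab_2, nab_3, nab_4, nab_5, nab_6, nab_7, nab_8, nab_9,
      nab_10, nab_11, nab_12, nab_13] <;> ring1

theorem parallel3 (u v : G) : H.nabla u (H.J3 v) = H.J3 (H.nabla u v) := by
  rw [← H.mul12, ← H.mul12, parallel1, parallel2]

/-! ### Nilpotency -/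

theorem step1 (u w : G) : ⁅u, w⁆ 0 = 0 ∧ ⁅u, w⁆ 1 = 0 ∧ ⁅u, w⁆ 2 = 0 ∧ ⁅u, w⁆ 3 = 0 := by
  simp only [G.lie_apply, D0, D1, D2, D3, sub_self, and_self]

theorem step2 (u w : G) (h : w 0 = 0 ∧ w 1 = 0 ∧ w 2 = 0 ∧ w 3 = 0) :
    ⁅u, w⁆ 4 = 0 ∧ ⁅u, w⁆ 5 = 0 := by
  obtain ⟨h0, h1, h2, h3⟩ := h
  simp only [G.lie_apply, D4, D5, h0, h1, h2, h3]
  constructor <;> ring

theorem step3 (u w : G) (h : w 0 = 0 ∧ w 1 = 0 ∧ w 2 = 0 ∧ w 3 = 0) (h' : w 4 = 0 ∧ w 5 = 0) :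
    ⁅u, w⁆ 6 = 0 ∧ ⁅u, w⁆ 7 = 0 ∧ ⁅u, w⁆ 8 = 0 ∧ ⁅u, w⁆ 9 = 0 := by
  obtain ⟨h0, h1, h2, h3⟩ := h
  obtain ⟨h4, h5⟩ := h'
  simp only [G.lie_apply, D6, D7, D8, D9, h0, h1, h4, h5]
  refine ⟨?_, ?_, ?_, ?_⟩ <;> ring

theorem step4 (u w : G) (h : w 0 = 0 ∧ w 1 = 0 ∧ w 2 = 0 ∧ w 3 = 0)
    (h' : w 6 = 0 ∧ w 7 = 0 ∧ w 8 = 0 ∧ w 9 = 0) :
    ⁅u, w⁆ 10 = 0 ∧ ⁅u, w⁆ 11 = 0 := by
  obtain ⟨h0, h1, h2, h3⟩ := h
  obtain ⟨h6, h7, h8, h9⟩ := h'
  simp only [G.lie_apply, D10, D11, h0, h1, h6, h7, h8, h9]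
  refine ⟨?_, ?_⟩ <;> ring

theorem step5 (u w : G) (h : w 0 = 0 ∧ w 1 = 0 ∧ w 2 = 0 ∧ w 3 = 0)
    (h' : w 10 = 0 ∧ w 11 = 0) :
    ⁅u, w⁆ 12 = 0 ∧ ⁅u, w⁆ 13 = 0 := by
  obtain ⟨h0, h1, h2, h3⟩ := h
  obtain ⟨h10, h11⟩ := h'
  simp only [G.lie_apply, D12, D13, h0, h1, h10, h11]
  refine ⟨?_, ?_⟩ <;> ring

theorem ad_five (u v : G) : ⁅u, ⁅u, ⁅u, ⁅u, ⁅u, v⁆⁆⁆⁆⁆ = 0 := by
  have a1 := step1 u v
  have a2 := step1 u ⁅u, v⁆
  have b2 := step2 u _ a1
  have a3 := step1 u ⁅u, ⁅u, v⁆⁆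
  have b3 := step2 u _ a2
  have c3 := step3 u _ a2 b2
  have a4 := step1 u ⁅u, ⁅u, ⁅u, v⁆⁆⁆
  have b4 := step2 u _ a3
  have c4 := step3 u _ a3 b3
  have d4 := step4 u _ a3 c3
  have a5 := step1 u ⁅u, ⁅u, ⁅u, ⁅u, v⁆⁆⁆⁆
  have b5 := step2 u _ a4
  have c5 := step3 u _ a4 b4
  have d5 := step4 u _ a4 c4
  have e5 := step5 u _ a4 d4
  exact G.ext14 a5.1 a5.2.1 a5.2.2.1 a5.2.2.2 b5.1 b5.2 c5.1 c5.2.1 c5.2.2.1 c5.2.2.2 d5.1 d5.2
    e5.1 e5.2

theorem isNilpotent_G : LieRing.IsNilpotent G := by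
  rw [LieAlgebra.isNilpotent_iff_forall (R := ℝ)]
  intro u
  refine ⟨5, ?_⟩
  ext1 v
  change ⁅u, ⁅u, ⁅u, ⁅u, ⁅u, v⁆⁆⁆⁆⁆ = 0
  exact ad_five u v

/-! ### Two curvature operators that do not commute -/

/-- basis vectors -/
def e0 : G := ![1, 0, 0, 0, 0, 0, 0, 0, 0, 0, 0, 0, 0, 0]
/-- basis vectors -/
def e1 : G := ![0, 1, 0, 0, 0, 0, 0, 0, 0, 0, 0, 0, 0, 0]
/-- basis vectors -/
def e3 : G := ![0, 0, 0, 1, 0, 0, 0, 0, 0, 0, 0, 0, 0, 0]
/-- basis vectors -/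
def e8 : G := ![0, 0, 0, 0, 0, 0, 0, 0, 1, 0, 0, 0, 0, 0]

theorem curv_eq (u v w : G) :
    H.curv u v w = nab u (nab v w) - nab v (nab u w) - nab ⁅u, v⁆ w := by
  rw [Hypercomplex.curv_apply]
  simp only [nabla_eq]

theorem e0_0 : e0 0 = 1 := rfl
theorem e0_1 : e0 1 = 0 := rfl
theorem e0_2 : e0 2 = 0 := rfl
theorem e0_3 : e0 3 = 0 := rfl
theorem e0_4 : e0 4 = 0 := rfl
theorem e0_5 : e0 5 = 0 := rfl
theorem e0_6 : e0 6 = 0 := rfl
theorem e0_7 : e0 7 = 0 := rfl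
theorem e0_8 : e0 8 = 0 := rfl
theorem e0_9 : e0 9 = 0 := rfl
theorem e0_10 : e0 10 = 0 := rfl
theorem e0_11 : e0 11 = 0 := rfl
theorem e0_12 : e0 12 = 0 := rfl
theorem e0_13 : e0 13 = 0 := rfl

theorem e1_0 : e1 0 = 0 := rfl
theorem e1_1 : e1 1 = 1 := rfl
theorem e1_2 : e1 2 = 0 := rfl
theorem e1_3 : e1 3 = 0 := rfl
theorem e1_4 : e1 4 = 0 := rfl
theorem e1_5 : e1 5 = 0 := rfl
theorem e1_6 : e1 6 = 0 := rfl
theorem e1_7 : e1 7 = 0 := rfl
theorem e1_8 : e1 8 = 0 := rfl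
theorem e1_9 : e1 9 = 0 := rfl
theorem e1_10 : e1 10 = 0 := rfl
theorem e1_11 : e1 11 = 0 := rfl
theorem e1_12 : e1 12 = 0 := rfl
theorem e1_13 : e1 13 = 0 := rfl

theorem e3_0 : e3 0 = 0 := rfl
theorem e3_1 : e3 1 = 0 := rfl
theorem e3_2 : e3 2 = 0 := rfl
theorem e3_3 : e3 3 = 1 := rfl
theorem e3_4 : e3 4 = 0 := rfl
theorem e3_5 : e3 5 = 0 := rfl
theorem e3_6 : e3 6 = 0 := rfl
theorem e3_7 : e3 7 = 0 := rfl
theorem e3_8 : e3 8 = 0 := rfl
theorem e3_9 : e3 9 = 0 := rfl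
theorem e3_10 : e3 10 = 0 := rfl
theorem e3_11 : e3 11 = 0 := rfl
theorem e3_12 : e3 12 = 0 := rfl
theorem e3_13 : e3 13 = 0 := rfl

theorem e8_0 : e8 0 = 0 := rfl
theorem e8_1 : e8 1 = 0 := rfl
theorem e8_2 : e8 2 = 0 := rfl
theorem e8_3 : e8 3 = 0 := rfl
theorem e8_4 : e8 4 = 0 := rfl
theorem e8_5 : e8 5 = 0 := rfl
theorem e8_6 : e8 6 = 0 := rfl
theorem e8_7 : e8 7 = 0 := rfl
theorem e8_8 : e8 8 = 1 := rfl
theorem e8_9 : e8 9 = 0 := rfl
theorem e8_10 : e8 10 = 0 := rfl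
theorem e8_11 : e8 11 = 0 := rfl
theorem e8_12 : e8 12 = 0 := rfl
theorem e8_13 : e8 13 = 0 := rfl

theorem curv03 : H.curv e0 e3 e0 = (-2 : ℝ) • e8 := by
  rw [curv_eq]
  apply G.ext14 <;>
    simp only [G.sub_apply, G.smul_apply, G.lie_apply,
      nab_0, nab_1, nab_2, nab_3, nab_4, nab_5, nab_6, nab_7, nab_8, nab_9, nab_10, nab_11,
      nab_12, nab_13, D0, D1, D2, D3, D4, D5, D6, D7, D8, D9, D10, D11, D12, D13, e0_0, e0_1,
      e0_2, e0_3, e0_4, e0_5, e0_6, e0_7, e0_8, e0_9, e0_10, e0_11, e0_12, e0_13, e1_0, e1_1,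
      e1_2, e1_3, e1_4, e1_5, e1_6, e1_7, e1_8, e1_9, e1_10, e1_11, e1_12, e1_13, e3_0, e3_1,
      e3_2, e3_3, e3_4, e3_5, e3_6, e3_7, e3_8, e3_9, e3_10, e3_11, e3_12, e3_13, e8_0, e8_1,
      e8_2, e8_3, e8_4, e8_5, e8_6, e8_7, e8_8, e8_9, e8_10, e8_11, e8_12, e8_13] <;> norm_num

theorem curv01 : H.curv e0 e1 e0 = 0 := by
  rw [curv_eq]
  apply G.ext14 <;>
    simp only [G.sub_apply, G.zero_apply, G.lie_apply,
      nab_0, nab_1, nab_2, nab_3, nab_4, nab_5, nab_6, nab_7, nab_8, nab_9, nab_10, nab_11,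
      nab_12, nab_13, D0, D1, D2, D3, D4, D5, D6, D7, D8, D9, D10, D11, D12, D13, e0_0, e0_1,
      e0_2, e0_3, e0_4, e0_5, e0_6, e0_7, e0_8, e0_9, e0_10, e0_11, e0_12, e0_13, e1_0, e1_1,
      e1_2, e1_3, e1_4, e1_5, e1_6, e1_7, e1_8, e1_9, e1_10, e1_11, e1_12, e1_13, e3_0, e3_1,
      e3_2, e3_3, e3_4, e3_5, e3_6, e3_7, e3_8, e3_9, e3_10, e3_11, e3_12, e3_13, e8_0, e8_1,
      e8_2, e8_3, e8_4, e8_5, e8_6, e8_7, e8_8, e8_9, e8_10, e8_11, e8_12, e8_13] <;> norm_num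

theorem curv01' : H.curv e0 e1 e8 12 = -2 := by
  rw [curv_eq]
  simp only [G.sub_apply, G.lie_apply,
      nab_0, nab_1, nab_2, nab_3, nab_4, nab_5, nab_6, nab_7, nab_8, nab_9, nab_10, nab_11,
      nab_12, nab_13, D0, D1, D2, D3, D4, D5, D6, D7, D8, D9, D10, D11, D12, D13, e0_0, e0_1,
      e0_2, e0_3, e0_4, e0_5, e0_6, e0_7, e0_8, e0_9, e0_10, e0_11, e0_12, e0_13, e1_0, e1_1,
      e1_2, e1_3, e1_4, e1_5, e1_6, e1_7, e1_8, e1_9, e1_10, e1_11, e1_12, e1_13, e3_0, e3_1,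
      e3_2, e3_3, e3_4, e3_5, e3_6, e3_7, e3_8, e3_9, e3_10, e3_11, e3_12, e3_13, e8_0, e8_1,
      e8_2, e8_3, e8_4, e8_5, e8_6, e8_7, e8_8, e8_9, e8_10, e8_11, e8_12, e8_13]
  norm_num

theorem not_commute : ⁅H.curv e0 e1, H.curv e0 e3⁆ ≠ 0 := by
  intro h
  have h1 : ⁅H.curv e0 e1, H.curv e0 e3⁆ e0 = (0 : G) := by
    rw [h]; rfl
  have h2 : ⁅H.curv e0 e1, H.curv e0 e3⁆ e0
      = H.curv e0 e1 (H.curv e0 e3 e0) - H.curv e0 e3 (H.curv e0 e1 e0) := rfl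
  rw [h2, curv03, curv01, map_smul, map_zero, sub_zero] at h1
  have h3 := congrFun h1 12
  change ((-2 : ℝ) • (H.curv e0 e1 e8)) 12 = (0 : G) 12 at h3
  rw [G.smul_apply, curv01', G.zero_apply] at h3
  norm_num at h3

/-- **There is a nilpotent real Lie algebra of dimension 28 with a hypercomplex structure whose
Obata connection has non-abelian holonomy algebra.**  The formula `H.nabla` is torsion-free and
preserves `J₁, J₂, J₃`, so it is the Obata connection.  Not only is the holonomy algebra `H.hol`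
non-abelian, but no Lie algebra of endomorphisms containing the curvature operators is abelian. -/
theorem result :
    ∃ (g : Type) (_ : LieRing g) (_ : LieAlgebra ℝ g) (H : Hypercomplex g),
      Module.finrank ℝ g = 28 ∧ LieRing.IsNilpotent g ∧
      H.TorsionFree ∧ H.Parallel H.J1 ∧ H.Parallel H.J2 ∧ H.Parallel H.J3 ∧
      NonAbelian H.hol ∧
      ∀ L : LieSubalgebra ℝ (Module.End ℝ g), H.ContainsCurvature L → NonAbelian L := by
  have main : ∀ L : LieSubalgebra ℝ (Module.End ℝ G), H.ContainsCurvature L →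
      NonAbelian L := by
    intro L hL
    refine ⟨H.curv e0 e1, hL _ _, H.curv e0 e3, hL _ _, fun h => not_commute ?_⟩
    rw [LieRing.of_associative_ring_bracket, h, sub_self]
  refine ⟨G, inferInstance, inferInstance, H, ?_, isNilpotent_G, torsion_free, parallel1,
    parallel2, parallel3, main _ H.curv_mem_hol, main⟩
  have : Module.finrank ℝ (Fin 14 → ℂ) = 28 := by
    rw [Module.finrank_pi_fintype]
    simp [Complex.finrank_real_complex]
  exact this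

end Pool.Agent.Results.MP_590da2_gt.NonAbelianHolonomy
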